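import Pool.Agent.MP_2b113a_an.H33.Defs

set_option autoImplicit false

namespace Pool.Agent.MP_2b113a_an.H20

open Polynomial Pool.Agent.MP_2b113a_an.H33

section

variable {Γ : Type} [Group Γ] {n : ℕ} {κ : Type}

/-- The word with parameters of level `q`. -/
def W (e : κ → ℤ → Γ) (q : ℕ) (w : List (κ × ℤ)) : Γ := (w.map fun a => e a.1 (a.2 * q)).prod

theorem W_nil (e : κ → ℤ → Γ) (q : ℕ) : W e q [] = 1 := rfl

theorem W_cons (e : κ → ℤ → Γ) (q : ℕ) (a : κ × ℤ) (w : List (κ × ℤ)) :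
    W e q (a :: w) = e a.1 (a.2 * q) * W e q w := by simp [W]

theorem W_append (e : κ → ℤ → Γ) (q : ℕ) (w w' : List (κ × ℤ)) :
    W e q (w ++ w') = W e q w * W e q w' := by simp [W]

theorem e_zero {e : κ → ℤ → Γ} (he : ∀ k s t, e k (s + t) = e k s * e k t) (k : κ) :
    e k 0 = 1 := by
  have := he k 0 0
  rw [add_zero] at this
  exact mul_left_cancel (a := e k 0) (by rw [← this, mul_one])

theorem W_zero {e : κ → ℤ → Γ} (he : ∀ k s t, e k (s + t) = e k s * e k t) (q : ℕ)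
    (K : List κ) : W e q (K.map fun k => (k, 0)) = 1 := by
  induction K with
  | nil => rfl
  | cons k K ih => rw [List.map_cons, W_cons, ih]; simp [e_zero he]

theorem fst_zero (K : List κ) : (K.map fun k => (k, (0 : ℤ))).map Prod.fst = K := by
  simp [List.map_map, Function.comp_def]

theorem W_scale (e : κ → ℤ → Γ) (q : ℕ) (w : List (κ × ℤ)) :
    W e q w = W e 1 (w.map fun a => (a.1, a.2 * q)) := by
  simp [W, List.map_map, Function.comp_def]

theorem exists_word {e : κ → ℤ → Γ} (he : ∀ k s t, e k (s + t) = e k s * e k t) {u : Γ}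
    (hu : u ∈ Subgroup.closure (Set.range fun k => e k 1)) : ∃ w, W e 1 w = u := by
  induction hu using Subgroup.closure_induction_left with
  | one => exact ⟨[], rfl⟩
  | mul_left x hx y _ ih =>
    obtain ⟨k, rfl⟩ := hx
    obtain ⟨w, rfl⟩ := ih
    exact ⟨(k, 1) :: w, by simp [W_cons]⟩
  | inv_mul_cancel x hx y _ ih =>
    obtain ⟨k, rfl⟩ := hx
    obtain ⟨w, rfl⟩ := ih
    refine ⟨(k, -1) :: w, ?_⟩
    have := he k (-1) 1
    rw [neg_add_cancel, e_zero he] at this
    rw [W_cons, ← eq_inv_of_mul_eq_one_left this.symm]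
    simp

/-- Polynomial dependence on the parameter of one letter. -/
theorem poly_letter {R : Type} [CommRing R] (mat : Γ →* Matrix (Fin n) (Fin n) ℤ)
    {e : κ → ℤ → Γ} {P : κ → Matrix (Fin n) (Fin n) ℤ[X]}
    (hP : ∀ k t i j, mat (e k t) i j = (P k i j).eval t)
    (F : MvPolynomial (Fin n × Fin n) R) (a b : Γ) (k : κ) :
    ∃ Q : R[X], ∀ t : ℤ,
      MvPolynomial.eval (fun ij => (mat (a * e k t * b) ij.1 ij.2 : R)) F = Q.eval (t : R) := by
  have hM : ∀ i j, ∃ M : R[X], ∀ t : ℤ, (mat (a * e k t * b) i j : R) = M.eval (t : R) := by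
    intro i j
    refine ⟨∑ l, (∑ m, C (mat a i m : R) * (P k m l).map (Int.castRingHom R)) *
      C (mat b l j : R), fun t => ?_⟩
    simp only [map_mul, Matrix.mul_apply, hP, eval_finsetSum, eval_mul, eval_C,
      eval_intCast_map]
    simp
  induction F using MvPolynomial.induction_on with
  | C r => exact ⟨C r, fun t => by simp⟩
  | add F G hF hG =>
    obtain ⟨Q, hQ⟩ := hF
    obtain ⟨Q', hQ'⟩ := hG
    exact ⟨Q + Q', fun t => by rw [map_add, hQ, hQ', eval_add]⟩
  | mul_X F ij hF =>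
    obtain ⟨Q, hQ⟩ := hF
    obtain ⟨M, hM⟩ := hM ij.1 ij.2
    exact ⟨Q * M, fun t => by rw [map_mul, hQ, MvPolynomial.eval_X, hM, eval_mul]⟩

/-- Words of level `q` are Zariski dense among the words of the same pattern. -/
theorem level_dense (mat : Γ →* Matrix (Fin n) (Fin n) ℤ)
    {e : κ → ℤ → Γ} {P : κ → Matrix (Fin n) (Fin n) ℤ[X]}
    (hP : ∀ k t i j, mat (e k t) i j = (P k i j).eval t)
    (F : MvPolynomial (Fin n × Fin n) ℚ) {q : ℕ} (hq : 0 < q) (K : List κ) :
    ∀ a : Γ, (∀ w : List (κ × ℤ), w.map Prod.fst = K →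
      MvPolynomial.eval (fun ij => (mat (a * W e q w) ij.1 ij.2 : ℚ)) F = 0) →
      ∀ w : List (κ × ℤ), w.map Prod.fst = K →
        MvPolynomial.eval (fun ij => (mat (a * W e 1 w) ij.1 ij.2 : ℚ)) F = 0 := by
  induction K with
  | nil =>
    intro a h w hw
    obtain rfl := List.map_eq_nil_iff.mp hw
    exact h [] rfl
  | cons k K ih =>
    intro a h w hw
    obtain ⟨⟨k', t⟩, w', rfl, hk, hw'⟩ := List.map_eq_cons_iff.mp hw
    obtain rfl : k' = k := hk
    obtain ⟨Q, hQ⟩ := poly_letter mat hP F a (W e 1 w') k'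
    have h0 : Q = 0 := by
      refine Q.eq_zero_of_infinite_isRoot ?_
      refine Set.infinite_of_injective_forall_mem (f := fun s : ℤ => ((s * q : ℤ) : ℚ)) ?_ ?_
      · intro s s' hs
        have h1 : s * q = s' * q := Int.cast_injective (α := ℚ) hs
        exact mul_right_cancel₀ (by exact_mod_cast hq.ne') h1
      · intro s
        change Q.eval _ = 0
        rw [← hQ]
        refine ih (a * e k' (s * q)) (fun w'' hw'' => ?_) w' hw'
        have := h ((k', s) :: w'') (by simp [hw''])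
        rwa [W_cons, ← mul_assoc] at this
    rw [W_cons, ← mul_assoc, hQ, h0, eval_zero]

/-- Finite rank of a polynomial function of a product. -/
theorem finite_rank (mat : Γ →* Matrix (Fin n) (Fin n) ℤ) (Ψ : MvPolynomial (Fin n × Fin n) ℤ) :
    ∃ (J : Finset (Fin n × Fin n →₀ ℕ)) (c : J → MvPolynomial (Fin n × Fin n) ℤ)
      (h : J → Γ → ℤ), ∀ u x : Γ,
      MvPolynomial.eval (fun ij => mat (u * x) ij.1 ij.2) Ψ =
        ∑ j, MvPolynomial.eval (fun ij => mat u ij.1 ij.2) (c j) * h j x := by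
  let θ : MvPolynomial (Fin n × Fin n) ℤ →+*
      MvPolynomial (Fin n × Fin n) (MvPolynomial (Fin n × Fin n) ℤ) :=
    MvPolynomial.eval₂Hom (Int.castRingHom _)
      fun ij => ∑ l, MvPolynomial.C (MvPolynomial.X (ij.1, l)) * MvPolynomial.X (l, ij.2)
  refine ⟨(θ Ψ).support, fun j => (θ Ψ).coeff j,
    fun j x => ∏ ij, mat x ij.1 ij.2 ^ (j.1 ij), fun u x => ?_⟩
  have h1 : (MvPolynomial.eval₂Hom (MvPolynomial.eval (fun ij => mat u ij.1 ij.2))
      (fun ij => mat x ij.1 ij.2)).comp θ =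
      MvPolynomial.eval (fun ij => mat (u * x) ij.1 ij.2) := by
    refine MvPolynomial.ringHom_ext (fun r => ?_) (fun ij => ?_)
    · simp
    · simp [θ, Matrix.mul_apply]
  rw [← h1, RingHom.comp_apply, MvPolynomial.coe_eval₂Hom, MvPolynomial.eval₂_eq']
  exact (Finset.sum_coe_sort (θ Ψ).support fun d =>
    MvPolynomial.eval (fun ij => mat u ij.1 ij.2) ((θ Ψ).coeff d) *
      ∏ ij, mat x ij.1 ij.2 ^ (d ij)).symm

/-- The uniform ideal statement. -/
theorem stepA (mat : Γ →* Matrix (Fin n) (Fin n) ℤ)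
    {e : κ → ℤ → Γ} {P : κ → Matrix (Fin n) (Fin n) ℤ[X]}
    (he : ∀ k s t, e k (s + t) = e k s * e k t)
    (hP : ∀ k t i j, mat (e k t) i j = (P k i j).eval t)
    (hd : ∀ f : MvPolynomial (Fin n × Fin n) ℚ,
      (∀ u ∈ Subgroup.closure (Set.range fun k => e k 1),
        MvPolynomial.eval (fun ij => (mat u ij.1 ij.2 : ℚ)) f = 0) →
      ∀ g, MvPolynomial.eval (fun ij => (mat g ij.1 ij.2 : ℚ)) f = 0)
    (Ψ : MvPolynomial (Fin n × Fin n) ℤ)
    (h1 : MvPolynomial.eval (fun ij => mat 1 ij.1 ij.2) Ψ ≠ 0) :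
    ∃ K : List κ, ∀ q : ℕ, 0 < q → ∃ D : ℕ, 0 < D ∧ ∀ (g : Γ) (a : ℤ),
      (∀ w : List (κ × ℤ), w.map Prod.fst = K →
        a ∣ MvPolynomial.eval (fun ij => mat (W e q w * g) ij.1 ij.2) Ψ) → a ∣ (D : ℤ) := by
  obtain ⟨J, c, h, hc⟩ := finite_rank mat Ψ
  let f : Γ → J → ℤ := fun u j => MvPolynomial.eval (fun ij => mat u ij.1 ij.2) (c j)
  let ρ : (J → ℤ) → J → ℚ := fun x j => (x j : ℚ)
  have hlam : ∀ lam : Module.Dual ℚ (J → ℚ), ∃ F : MvPolynomial (Fin n × Fin n) ℚ, ∀ u,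
      lam (ρ (f u)) = MvPolynomial.eval (fun ij => (mat u ij.1 ij.2 : ℚ)) F := by
    intro lam
    refine ⟨∑ j, MvPolynomial.map (Int.castRingHom ℚ) (c j) *
      MvPolynomial.C (lam fun i => if j = i then 1 else 0), fun u => ?_⟩
    rw [LinearMap.pi_apply_eq_sum_univ, map_sum]
    refine Finset.sum_congr rfl fun j _ => ?_
    have a1 : ρ (f u) j = MvPolynomial.eval₂ (Int.castRingHom ℚ)
        (fun ij => (mat u ij.1 ij.2 : ℚ)) (c j) :=
      MvPolynomial.eval₂_comp (Int.castRingHom ℚ)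
        (fun ij : Fin n × Fin n => mat u ij.1 ij.2) (c j)
    rw [map_mul, MvPolynomial.eval_C, smul_eq_mul, MvPolynomial.eval_map, a1]
  let V : ℕ → List κ → Submodule ℚ (J → ℚ) := fun q K =>
    Submodule.span ℚ {y | ∃ w : List (κ × ℤ), w.map Prod.fst = K ∧ ρ (f (W e q w)) = y}
  obtain ⟨V0, ⟨K, rfl⟩, hmax⟩ := WellFounded.has_min (wellFounded_gt (α := Submodule ℚ (J → ℚ)))
    (Set.range (V 1)) ⟨_, [], rfl⟩
  have hK : ∀ K', V 1 K' ≤ V 1 K := by
    intro K'
    have a1 : V 1 K ≤ V 1 (K ++ K') := by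
      refine Submodule.span_mono ?_
      rintro y ⟨w, hw, rfl⟩
      refine ⟨w ++ K'.map fun k => (k, 0), by rw [List.map_append, hw, fst_zero], ?_⟩
      rw [W_append, W_zero he, mul_one]
    have a2 : V 1 K' ≤ V 1 (K ++ K') := by
      refine Submodule.span_mono ?_
      rintro y ⟨w, hw, rfl⟩
      refine ⟨(K.map fun k => (k, 0)) ++ w, by rw [List.map_append, hw, fst_zero], ?_⟩
      rw [W_append, W_zero he, one_mul]
    have a3 : V 1 K = V 1 (K ++ K') := by
      by_contra hne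
      exact hmax _ ⟨K ++ K', rfl⟩ (lt_of_le_of_ne a1 hne)
    rw [a3]
    exact a2
  refine ⟨K, fun q hq => ?_⟩
  have hall : ∀ g, ρ (f g) ∈ V q K := by
    intro g
    rw [← Subspace.forall_mem_dualAnnihilator_apply_eq_zero_iff]
    intro lam hl
    rw [Submodule.mem_dualAnnihilator] at hl
    obtain ⟨F, hF⟩ := hlam lam
    have b1 : ∀ y ∈ V 1 K, lam y = 0 := by
      intro y hy
      have : V 1 K ≤ LinearMap.ker lam := by
        refine Submodule.span_le.mpr ?_
        rintro y ⟨w, hw, rfl⟩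
        have := level_dense mat hP F hq K 1 (fun w' hw' => ?_) w hw
        · rw [one_mul, ← hF] at this
          exact this
        · rw [one_mul, ← hF]
          exact hl _ (Submodule.subset_span ⟨w', hw', rfl⟩)
      exact this hy
    rw [hF]
    refine hd F (fun u hu => ?_) g
    obtain ⟨w, rfl⟩ := exists_word he hu
    rw [← hF]
    exact b1 _ (hK _ (Submodule.subset_span ⟨w, rfl, rfl⟩))
  let L : Submodule ℤ (J → ℤ) :=
    Submodule.span ℤ {y | ∃ w : List (κ × ℤ), w.map Prod.fst = K ∧ f (W e q w) = y}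
  have hden : ∀ y ∈ V q K, ∃ d : ℕ, 0 < d ∧ ∃ z ∈ L, ρ z = (d : ℚ) • y := by
    intro y hy
    induction hy using Submodule.span_induction with
    | mem y hy =>
      obtain ⟨w, hw, rfl⟩ := hy
      exact ⟨1, one_pos, _, Submodule.subset_span ⟨w, hw, rfl⟩, by simp⟩
    | zero => exact ⟨1, one_pos, 0, L.zero_mem, by ext j; simp [ρ]⟩
    | add y y' _ _ ih ih' =>
      obtain ⟨d, hd0, z, hz, e1⟩ := ih
      obtain ⟨d', hd0', z', hz', e2⟩ := ih'
      refine ⟨d * d', Nat.mul_pos hd0 hd0', (d' : ℤ) • z + (d : ℤ) • z',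
        L.add_mem (L.smul_mem _ hz) (L.smul_mem _ hz'), ?_⟩
      ext j
      have a1 := congrFun e1 j
      have a2 := congrFun e2 j
      simp only [ρ, Pi.smul_apply, smul_eq_mul, Pi.add_apply] at a1 a2 ⊢
      push_cast
      rw [a1, a2]
      ring
    | smul r y _ ih =>
      obtain ⟨d, hd0, z, hz, e1⟩ := ih
      refine ⟨d * r.den, Nat.mul_pos hd0 r.den_pos, r.num • z, L.smul_mem _ hz, ?_⟩
      ext j
      have a1 := congrFun e1 j
      simp only [ρ, Pi.smul_apply, smul_eq_mul] at a1 ⊢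
      push_cast
      rw [a1, ← Rat.mul_den_eq_num]
      ring
  let T : ℕ →o Submodule ℤ (J → ℤ) :=
    ⟨fun m => L.comap ((m.factorial : ℤ) • LinearMap.id), fun m m' hm x hx => by
      obtain ⟨r, hr⟩ := Nat.factorial_dvd_factorial hm
      simp only [Submodule.mem_comap, LinearMap.smul_apply, LinearMap.id_apply] at hx ⊢
      rw [hr, Nat.cast_mul, mul_comm, mul_smul]
      exact L.smul_mem _ hx⟩
  obtain ⟨m0, hm0⟩ := monotone_stabilizes_iff_noetherian.mpr inferInstance T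
  have hD : ∀ g, (m0.factorial : ℤ) • f g ∈ L := by
    intro g
    obtain ⟨d, hd0, z, hz, e1⟩ := hden _ (hall g)
    have e2 : z = (d : ℤ) • f g := by
      ext j
      have a1 := congrFun e1 j
      simp only [ρ, Pi.smul_apply, smul_eq_mul] at a1 ⊢
      exact_mod_cast a1
    have e3 : f g ∈ T (max d m0) := by
      obtain ⟨r, hr⟩ := Nat.dvd_factorial hd0 (le_max_left d m0)
      change ((max d m0).factorial : ℤ) • f g ∈ L
      rw [hr, Nat.cast_mul, mul_comm, mul_smul, ← e2]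
      exact L.smul_mem _ hz
    rw [← hm0 _ (le_max_right d m0)] at e3
    exact e3
  refine ⟨m0.factorial * (MvPolynomial.eval (fun ij => mat 1 ij.1 ij.2) Ψ).natAbs,
    Nat.mul_pos (Nat.factorial_pos _) (Int.natAbs_pos.mpr h1), fun g a ha => ?_⟩
  have hL : ∀ z ∈ L, a ∣ ∑ j, z j * h j g := by
    intro z hz
    induction hz using Submodule.span_induction with
    | mem y hy =>
      obtain ⟨w, hw, rfl⟩ := hy
      have := ha w hw
      rwa [hc] at this
    | zero => simp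
    | add y y' _ _ ih ih' =>
      simp only [Pi.add_apply, add_mul, Finset.sum_add_distrib]
      exact dvd_add ih ih'
    | smul r y _ ih =>
      simp only [Pi.smul_apply, smul_eq_mul, mul_assoc, ← Finset.mul_sum]
      exact Dvd.dvd.mul_left ih r
  have := hL _ (hD g⁻¹)
  simp only [Pi.smul_apply, smul_eq_mul, mul_assoc, ← Finset.mul_sum] at this
  rw [← hc, inv_mul_cancel] at this
  rw [Nat.cast_mul, Int.natCast_natAbs, ← abs_of_nonneg (Int.natCast_nonneg m0.factorial),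
    ← abs_mul, dvd_abs]
  exact this

theorem crt (S : Finset ℕ) (hS : ∀ p ∈ S, p.Prime) (v : ℕ → ℕ) (s : ℕ → ℤ) (Q : ℤ[X])
    (hQ : Q ≠ 0) : ∃ r : ℤ, Q.eval r ≠ 0 ∧ ∀ p ∈ S, (p : ℤ) ^ v p ∣ r - s p := by
  obtain ⟨r, hr⟩ := Ideal.exists_forall_sub_mem_ideal (R := ℤ) (ι := S)
    (I := fun p => Ideal.span {((p : ℕ) : ℤ) ^ v p}) (fun p p' hne => by
      simp only [Function.onFun]
      rw [Ideal.isCoprime_span_singleton_iff]
      exact (Nat.isCoprime_iff_coprime.mpr ((Nat.coprime_primes (hS _ p.2) (hS _ p'.2)).mpr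
        fun h => hne (Subtype.ext h))).pow) (fun p => s p)
  by_contra hc
  push Not at hc
  apply hQ
  refine Q.eq_zero_of_infinite_isRoot ?_
  have hM : ∏ p ∈ S, (p : ℤ) ^ v p ≠ 0 :=
    Finset.prod_ne_zero_iff.mpr fun p hp => pow_ne_zero _ (by exact_mod_cast (hS p hp).ne_zero)
  refine Set.infinite_of_injective_forall_mem
    (f := fun t : ℤ => r + t * ∏ p ∈ S, (p : ℤ) ^ v p) ?_ ?_
  · intro t t' ht
    exact mul_right_cancel₀ hM (add_left_cancel ht)
  · intro t
    change Q.eval _ = 0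
    by_contra h0
    obtain ⟨p, hp, hn⟩ := hc _ h0
    apply hn
    have a1 := Ideal.mem_span_singleton.mp (hr ⟨p, hp⟩)
    rw [add_sub_right_comm]
    exact dvd_add a1 (Dvd.dvd.mul_left (Finset.dvd_prod_of_mem _ hp) t)

/-- Removing the letters one by one. -/
theorem stepB (mat : Γ →* Matrix (Fin n) (Fin n) ℤ) {ι : Type} [Fintype ι]
    {e : κ → ℤ → Γ} {P : κ → Matrix (Fin n) (Fin n) ℤ[X]}
    {p : ι → MvPolynomial (Fin n × Fin n) ℤ} {φ : ι → Γ → ℤ}
    (he : ∀ k s t, e k (s + t) = e k s * e k t)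
    (hP : ∀ k t i j, mat (e k t) i j = (P k i j).eval t)
    (hφ : ∀ i g, φ i g = MvPolynomial.eval (fun ij => mat g ij.1 ij.2) (p i))
    (hk : ∀ k, ∃ i, ∀ t g, φ i (e k t * g) = φ i g) (q : ℕ) (v : ℕ → ℕ) (K : List κ) :
    ∀ g : Γ, (∀ i, φ i g ≠ 0) →
      (∀ l : ℕ, l.Prime → ∃ w : List (κ × ℤ), w.map Prod.fst = K ∧
        ∃ i, ¬ (l : ℤ) ^ (v l + 1) ∣ φ i (W e q w * g)) →
      ∃ w : List (κ × ℤ), w.length = K.length ∧ (∀ i, φ i (W e q w * g) ≠ 0) ∧
        ∀ l : ℕ, l.Prime → ∃ i, ¬ (l : ℤ) ^ (v l + 1) ∣ φ i (W e q w * g) := by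
  induction K using List.reverseRecOn with
  | nil =>
    intro g h0 h
    refine ⟨[], rfl, by simpa [W_nil] using h0, fun l hl => ?_⟩
    obtain ⟨w, hw, hi⟩ := h l hl
    obtain rfl := List.map_eq_nil_iff.mp hw
    exact hi
  | append_singleton K k ih =>
    intro g h0 h
    have hpoly : ∀ (i : ι) (a : Γ), ∃ Q : ℤ[X], ∀ t : ℤ,
        φ i (a * (e k (t * q) * g)) = Q.eval t := by
      intro i a
      obtain ⟨Q, hQ⟩ := poly_letter mat hP (p i) a g k
      refine ⟨Q.comp (X * C (q : ℤ)), fun t => ?_⟩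
      have := hQ (t * q)
      simp only [Int.cast_id] at this
      rw [hφ, ← mul_assoc, this, eval_comp]
      simp
    have h' : ∀ l : ℕ, ∃ (w : List (κ × ℤ)) (s : ℤ) (i : ι), l.Prime → w.map Prod.fst = K ∧
        ¬ (l : ℤ) ^ (v l + 1) ∣ φ i (W e q w * (e k (s * q) * g)) := by
      intro l
      by_cases hl : l.Prime
      · obtain ⟨w, hw, i, hi⟩ := h l hl
        obtain ⟨w1, w2, rfl, h1, h2⟩ := List.map_eq_append_iff.mp hw
        obtain ⟨⟨k', s⟩, rfl, h3⟩ := List.map_eq_singleton_iff.mp h2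
        obtain rfl : k' = k := h3
        refine ⟨w1, s, i, fun _ => ⟨h1, ?_⟩⟩
        rwa [W_append, W_cons, W_nil, mul_one, mul_assoc] at hi
      · obtain ⟨i, -⟩ := hk k
        exact ⟨[], 0, i, fun h => absurd h hl⟩
    choose wl sl il hl using h'
    obtain ⟨i0, hi0⟩ := hk k
    choose Q1 hQ1 using fun i => hpoly i 1
    have hQ : ∏ i, Q1 i ≠ 0 := by
      refine Finset.prod_ne_zero_iff.mpr fun i _ hz => h0 i ?_
      have := hQ1 i 0
      rwa [hz, eval_zero, zero_mul, e_zero he, one_mul, one_mul] at this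
    obtain ⟨r, hr, hr'⟩ := crt (φ i0 g).natAbs.primeFactors
      (fun l hl => Nat.prime_of_mem_primeFactors hl) (fun l => v l + 1) sl _ hQ
    rw [eval_prod, Finset.prod_ne_zero_iff] at hr
    have hgood : ∀ l : ℕ, l.Prime → ∃ w : List (κ × ℤ), w.map Prod.fst = K ∧
        ∃ i, ¬ (l : ℤ) ^ (v l + 1) ∣ φ i (W e q w * (e k (r * q) * g)) := by
      intro l hlp
      by_cases hdv : l ∣ (φ i0 g).natAbs
      · obtain ⟨a1, a2⟩ := hl l hlp
        refine ⟨wl l, a1, il l, fun hc => a2 ?_⟩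
        obtain ⟨Q, hQ⟩ := hpoly (il l) (W e q (wl l))
        rw [hQ] at hc ⊢
        have a3 := hr' l (Nat.mem_primeFactors.mpr ⟨hlp, hdv, Int.natAbs_ne_zero.mpr (h0 i0)⟩)
        have a4 := dvd_sub hc (a3.trans (sub_dvd_eval_sub r (sl l) Q))
        rwa [sub_sub_cancel] at a4
      · refine ⟨K.map fun k => (k, 0), fst_zero K, i0, fun hc => hdv ?_⟩
        rw [W_zero he, one_mul, hi0] at hc
        exact Int.natCast_dvd.mp ((dvd_pow_self _ (Nat.succ_ne_zero _)).trans hc)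
    obtain ⟨w, hw, h1, h2⟩ := ih (e k (r * q) * g)
      (fun i => by have := hr i (Finset.mem_univ i); rwa [← hQ1, one_mul] at this) hgood
    refine ⟨w ++ [(k, r)], by simp [hw], ?_, ?_⟩
    · rwa [W_append, W_cons, W_nil, mul_one, mul_assoc]
    · rwa [W_append, W_cons, W_nil, mul_one, mul_assoc]

end

theorem arith : ArithStmt := by
  intro Γ _ n mat κ ι _ _ e P p φ he hP hφ h1 hk hd
  have hψ : ∀ g, MvPolynomial.eval (fun ij => mat g ij.1 ij.2) (∏ i, p i) = ∏ i, φ i g := by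
    intro g
    rw [map_prod]
    exact Finset.prod_congr rfl fun i _ => (hφ i g).symm
  obtain ⟨K, hK⟩ := stepA mat he hP hd (∏ i, p i)
    (by rw [hψ]; exact Finset.prod_ne_zero_iff.mpr fun i _ => h1 i)
  refine ⟨K.length + K.length, fun q hq => ?_⟩
  obtain ⟨D, hD, hK⟩ := hK q hq
  simp only [hψ] at hK
  refine ⟨D, hD, fun g => ?_⟩
  obtain ⟨w1, hw1, a1⟩ : ∃ w : List (κ × ℤ), w.map Prod.fst = K ∧ ∀ i, φ i (W e q w * g) ≠ 0 := by
    by_contra hc
    push Not at hc
    have := hK g 0 fun w hw => by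
      obtain ⟨i, hi⟩ := hc w hw
      rw [Finset.prod_eq_zero (Finset.mem_univ i) hi]
    rw [zero_dvd_iff] at this
    omega
  obtain ⟨w2, hw2, a2, a3⟩ := stepB mat he hP hφ hk q D.factorization K (W e q w1 * g) a1
    (fun l hl => by
      by_contra hc
      push Not at hc
      obtain ⟨i⟩ := (inferInstance : Nonempty ι)
      have := hK (W e q w1 * g) ((l : ℤ) ^ (D.factorization l + 1)) fun w hw =>
        (hc w hw i).trans (Finset.dvd_prod_of_mem _ (Finset.mem_univ i))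
      exact Nat.pow_succ_factorization_not_dvd hD.ne' hl (by exact_mod_cast this))
  rw [← mul_assoc, ← W_append] at a2 a3
  refine ⟨w2 ++ w1, ?_, a2, ?_⟩
  · rw [List.length_append, hw2, ← hw1, List.length_map]
  · change ∃ m : ι → ℤ, ∑ i, m i * φ i (W e q (w2 ++ w1) * g) = D
    rw [← Ideal.mem_span_range_iff_exists_fun]
    obtain ⟨G, hG⟩ := (IsPrincipalIdealRing.principal
      (Ideal.span (Set.range fun i => φ i (W e q (w2 ++ w1) * g)))).principal
    have hdv : ∀ i, G ∣ φ i (W e q (w2 ++ w1) * g) := by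
      intro i
      rw [← Ideal.mem_span_singleton, ← Ideal.submodule_span_eq, ← hG]
      exact Ideal.subset_span ⟨i, rfl⟩
    rw [hG, Ideal.submodule_span_eq, Ideal.mem_span_singleton, ← Int.natAbs_dvd,
      Int.natCast_dvd_natCast, Nat.dvd_iff_prime_pow_dvd_dvd]
    intro l k hl hlk
    obtain ⟨i, hi⟩ := a3 l hl
    have hk' : k ≤ D.factorization l := by
      by_contra hlt
      apply hi
      refine (pow_dvd_pow _ (by omega : D.factorization l + 1 ≤ k)).trans
        (Dvd.dvd.trans ?_ (hdv i))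
      rw [← Int.dvd_natAbs]
      exact_mod_cast hlk
    exact (pow_dvd_pow _ hk').trans (Nat.ordProj_dvd D l)

end Pool.Agent.MP_2b113a_an.H20
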